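import Mathlib

/-!
# The union-closed sets conjecture for families in which covers cover, and for subracks

Let `𝓐` be a union-closed family of subsets of a finite set `X` in which every point outside a
member `A` lies in a member covering `A` (in the inclusion order of `𝓐`). Then every point of `X`
lies in at least half of the members; and if `𝓐` separates points and is not the power set, then
some point lies in strictly more than half of them.

The families of complements of subalgebras satisfy the hypothesis for every finite algebra whose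
translations are permutations that map subalgebras to subalgebras; in particular for the subracks
of every finite rack, and for every hereditary family of subracks.
-/

namespace Pool.Agent.Results.MP_d55cb9_co.AutomorphicTranslations

/-- The union of two members is a member. -/
def UnionClosed {X : Type} [DecidableEq X] (𝓐 : Finset (Finset X)) : Prop :=
  ∀ A ∈ 𝓐, ∀ B ∈ 𝓐, A ∪ B ∈ 𝓐

/-- Every point outside a member `A` lies in a member `B` which covers `A`. -/
def CoversCover {X : Type} (𝓐 : Finset (Finset X)) : Prop :=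
  ∀ A ∈ 𝓐, ∀ x, x ∉ A → ∃ B ∈ 𝓐, x ∈ B ∧ A ⊆ B ∧ ∀ C ∈ 𝓐, A ⊆ C → C ⊆ B → C = A ∨ C = B

/-- Any two points are separated by a member. -/
def Separates {X : Type} (𝓐 : Finset (Finset X)) : Prop :=
  ∀ x y : X, x ≠ y → ∃ A ∈ 𝓐, ¬ (x ∈ A ↔ y ∈ A)

section General

variable {X : Type} {𝓐 : Finset (Finset X)}

/-- `A` is the only member between `A` and `B` which does not contain `x ∈ B`. -/
def Gen (𝓐 : Finset (Finset X)) (A : Finset X) (x : X) (B : Finset X) : Prop :=
  B ∈ 𝓐 ∧ A ⊆ B ∧ x ∈ B ∧ ∀ C ∈ 𝓐, A ⊆ C → C ⊆ B → x ∉ C → C = A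

theorem Gen.unique [DecidableEq X] (hU : UnionClosed 𝓐) {A A' B : Finset X} {x : X}
    (hA : A ∈ 𝓐) (hA' : A' ∈ 𝓐) (hx : x ∉ A) (hx' : x ∉ A') (h : Gen 𝓐 A x B)
    (h' : Gen 𝓐 A' x B) : A = A' := by
  have hx2 : x ∉ A ∪ A' := by
    rw [Finset.mem_union]
    exact fun e => e.elim hx hx'
  have h1 := h.2.2.2 (A ∪ A') (hU A hA A' hA') Finset.subset_union_left
    (Finset.union_subset h.2.1 h'.2.1) hx2
  have h2 := h'.2.2.2 (A ∪ A') (hU A hA A' hA') Finset.subset_union_right
    (Finset.union_subset h.2.1 h'.2.1) hx2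
  rw [← h1, h2]

/-- A choice of covers, for one point `x`. -/
def Choice (𝓐 : Finset (Finset X)) (N : X → Finset X → Finset X) : Prop :=
  ∀ x, ∀ A ∈ 𝓐, x ∉ A → N x A ∈ 𝓐 ∧ x ∈ N x A ∧ A ⊆ N x A ∧
    ∀ C ∈ 𝓐, A ⊆ C → C ⊆ N x A → C = A ∨ C = N x A

theorem exists_choice (h : CoversCover 𝓐) : ∃ N, Choice 𝓐 N := by
  classical
  have h' : ∀ x : X, ∀ A : Finset X, ∃ B : Finset X, (A ∈ 𝓐 ∧ x ∉ A) → (B ∈ 𝓐 ∧ x ∈ B ∧ A ⊆ B ∧
      ∀ C ∈ 𝓐, A ⊆ C → C ⊆ B → C = A ∨ C = B) := by
    intro x A
    by_cases hA : A ∈ 𝓐 ∧ x ∉ A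
    · obtain ⟨B, hB, h2⟩ := h A hA.1 x hA.2
      exact ⟨B, fun _ => ⟨hB, h2⟩⟩
    · exact ⟨∅, fun h3 => absurd h3 hA⟩
  choose N hN using h'
  exact ⟨N, fun x A hA hx => hN x A ⟨hA, hx⟩⟩

theorem Choice.gen {N : X → Finset X → Finset X} (h : Choice 𝓐 N) {x : X} {A : Finset X}
    (hA : A ∈ 𝓐) (hx : x ∉ A) {y : X} (hy : y ∈ N x A) : Gen 𝓐 A y (N x A) := by
  obtain ⟨h1, _, h3, h4⟩ := h x A hA hx
  refine ⟨h1, h3, hy, fun C hC hAC hCB hyC => ?_⟩
  rcases h4 C hC hAC hCB with e | e
  · exact e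
  · exact absurd (e ▸ hy) hyC

theorem Choice.inj [DecidableEq X] (hU : UnionClosed 𝓐) {N : X → Finset X → Finset X}
    (h : Choice 𝓐 N) (x : X) :
    Set.InjOn (N x) ((𝓐.filter fun A => x ∉ A : Finset (Finset X)) : Set (Finset X)) := by
  intro A hA B hB hAB
  have hA' := Finset.mem_filter.1 (Finset.mem_coe.1 hA)
  have hB' := Finset.mem_filter.1 (Finset.mem_coe.1 hB)
  have h1 := h.gen hA'.1 hA'.2 (h x A hA'.1 hA'.2).2.1
  have h2 := h.gen hB'.1 hB'.2 (h x B hB'.1 hB'.2).2.1
  have hAB' : N x A = N x B := hAB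
  rw [← hAB'] at h2
  exact Gen.unique hU hA'.1 hB'.1 hA'.2 hB'.2 h1 h2

theorem Choice.maps [DecidableEq X] {N : X → Finset X → Finset X}
    (h : Choice 𝓐 N) (x : X) :
    ∀ A ∈ 𝓐.filter (fun A => x ∉ A), N x A ∈ 𝓐.filter (fun A => x ∈ A) := by
  intro A hA
  have hA' := Finset.mem_filter.1 hA
  exact Finset.mem_filter.2 ⟨(h x A hA'.1 hA'.2).1, (h x A hA'.1 hA'.2).2.1⟩

theorem half [DecidableEq X] (hU : UnionClosed 𝓐) (h : CoversCover 𝓐) (x : X) :
    𝓐.card ≤ 2 * (𝓐.filter fun A => x ∈ A).card := by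
  obtain ⟨N, hN⟩ := exists_choice h
  have h1 : (𝓐.filter fun A => x ∉ A).card ≤ (𝓐.filter fun A => x ∈ A).card :=
    Finset.card_le_card_of_injOn (N x) (hN.maps x) (hN.inj hU x)
  have h2 := Finset.card_filter_add_card_filter_not (s := 𝓐) (fun A => x ∈ A)
  omega

/-- Every member strictly inside a member contains a cover. -/
theorem exists_cover_below {A : Finset X} (_hA : A ∈ 𝓐) {C : Finset X} (hC : C ∈ 𝓐) (hAC : A ⊆ C) (hne : C ≠ A) :
    ∃ M ∈ 𝓐, A ⊆ M ∧ M ≠ A ∧ M ⊆ C ∧ ∀ D ∈ 𝓐, A ⊆ D → D ⊆ M → D = A ∨ D = M := by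
  classical
  obtain ⟨M, hM, hmin⟩ := Finset.exists_min_image
    (𝓐.filter fun M => A ⊆ M ∧ M ≠ A ∧ M ⊆ C) Finset.card
    ⟨C, Finset.mem_filter.2 ⟨hC, hAC, hne, Finset.Subset.refl _⟩⟩
  obtain ⟨hM1, hM2, hM3, hM4⟩ := Finset.mem_filter.1 hM
  refine ⟨M, hM1, hM2, hM3, hM4, fun D hD hAD hDM => ?_⟩
  by_cases e : D = A
  · exact Or.inl e
  · right
    exact Finset.eq_of_subset_of_card_le hDM
      (hmin D (Finset.mem_filter.2 ⟨hD, hAD, e, hDM.trans hM4⟩))

theorem strict [Fintype X] [DecidableEq X] (hU : UnionClosed 𝓐) (h : CoversCover 𝓐)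
    (hsep : Separates 𝓐) (hne : 𝓐.Nonempty) (hD : ∃ D, D ∉ 𝓐) :
    ∃ x, 𝓐.card < 2 * (𝓐.filter fun A => x ∈ A).card := by
  by_contra hcon
  push Not at hcon
  obtain ⟨N, hN⟩ := exists_choice h
  -- the injections are bijections
  have hsurj : ∀ x, ∀ B ∈ 𝓐, x ∈ B → ∃ A ∈ 𝓐, x ∉ A ∧ N x A = B := by
    intro x B hB hxB
    have hcard : (𝓐.filter fun A => x ∈ A).card ≤ (𝓐.filter fun A => x ∉ A).card := by
      have h2 := Finset.card_filter_add_card_filter_not (s := 𝓐) (fun A => x ∈ A)
      have h3 := hcon x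
      omega
    have himg : (𝓐.filter fun A => x ∉ A).image (N x) = 𝓐.filter fun A => x ∈ A := by
      apply Finset.eq_of_subset_of_card_le
      · intro B' hB'
        obtain ⟨A, hA, rfl⟩ := Finset.mem_image.1 hB'
        exact hN.maps x A hA
      · rw [Finset.card_image_of_injOn (hN.inj hU x)]
        exact hcard
    have hB' : B ∈ (𝓐.filter fun A => x ∉ A).image (N x) := by
      rw [himg]
      exact Finset.mem_filter.2 ⟨hB, hxB⟩
    obtain ⟨A, hA, hAB⟩ := Finset.mem_image.1 hB'
    exact ⟨A, (Finset.mem_filter.1 hA).1, (Finset.mem_filter.1 hA).2, hAB⟩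
  -- uniqueness
  have hUq : ∀ A ∈ 𝓐, ∀ x, x ∉ A → ∀ B, Gen 𝓐 A x B → B = N x A := by
    intro A hA x hx B hB
    obtain ⟨A', hA', hx', hAB⟩ := hsurj x B hB.1 hB.2.2.1
    have h1 : Gen 𝓐 A' x B := by
      rw [← hAB]
      exact hN.gen hA' hx' (hN x A' hA' hx').2.1
    have h2 : A = A' := Gen.unique hU hA hA' hx hx' hB h1
    rw [← hAB, h2]
  -- all sets above a member are members
  have hup : ∀ A ∈ 𝓐, ∀ D, A ⊆ D → D ∈ 𝓐 := by
    by_contra hbad
    push Not at hbad
    obtain ⟨A₀, hA₀, D₀, hAD₀, hD₀⟩ := hbad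
    obtain ⟨A, hAmem, hAmax⟩ := Finset.exists_max_image
      (𝓐.filter fun A => ∃ D, A ⊆ D ∧ D ∉ 𝓐) Finset.card
      ⟨A₀, Finset.mem_filter.2 ⟨hA₀, D₀, hAD₀, hD₀⟩⟩
    obtain ⟨hA, D, hAD, hDn⟩ := Finset.mem_filter.1 hAmem
    -- strictly larger members are fine
    have hlarge : ∀ B ∈ 𝓐, A ⊆ B → B ≠ A → ∀ E, B ⊆ E → E ∈ 𝓐 := by
      intro B hB hAB hBA E hBE
      by_contra hE
      have h1 := hAmax B (Finset.mem_filter.2 ⟨hB, E, hBE, hE⟩)
      exact hBA (Finset.eq_of_subset_of_card_le hAB h1).symm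
    have hNe : ∀ w, w ∉ A → N w A ≠ A := fun w hw e => by
      have h1 := (hN w A hA hw).2.1
      rw [e] at h1
      exact hw h1
    -- if `y` lies in the cover of `x`, it has the same cover
    have hB : ∀ x, x ∉ A → ∀ y, y ∉ A → y ∈ N x A → N y A = N x A := by
      intro x hx y hy hyx
      exact (hUq A hA y hy (N x A) (hN.gen hA hx hyx)).symm
    obtain ⟨s, hsD, hsA⟩ : ∃ s ∈ D, s ∉ A := by
      by_contra hc
      push Not at hc
      exact hDn ((Finset.Subset.antisymm hAD hc) ▸ hA)
    obtain ⟨d, hdN, hdD⟩ : ∃ d ∈ N s A, d ∉ D := by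
      by_contra hc
      push Not at hc
      exact hDn (hlarge _ (hN s A hA hsA).1 (hN s A hA hsA).2.2.1 (hNe s hsA) D hc)
    have hdA : d ∉ A := fun e => hdD (hAD e)
    have hsd : s ≠ d := fun e => hdD (e ▸ hsD)
    have hNd : N d A = N s A := hB s hsA d hdA hdN
    by_cases hz : ∃ z, z ∉ N s A
    · obtain ⟨z, hz⟩ := hz
      have hzA : z ∉ A := fun e => hz ((hN s A hA hsA).2.2.1 e)
      obtain ⟨hz1, hz2, hz3, hz4⟩ := hN z A hA hzA
      have hszN : s ∉ N z A := by
        intro e
        have h1 := hB z hzA s hsA e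
        rw [h1] at hz
        exact hz hz2
      have hdzN : d ∉ N z A := by
        intro e
        have h1 := hB z hzA d hdA e
        rw [← hNd, h1] at hz
        exact hz hz2
      have hT : insert s (N z A) ∈ 𝓐 :=
        hlarge _ hz1 hz3 (hNe z hzA) _ (Finset.subset_insert _ _)
      have hgen : Gen 𝓐 A z (insert s (N z A)) := by
        refine ⟨hT, hz3.trans (Finset.subset_insert _ _), Finset.mem_insert_of_mem hz2, ?_⟩
        intro C hC hAC hCT hzC
        by_contra hCA
        obtain ⟨M, hM, hAM, hMA, hMC, hMcov⟩ := exists_cover_below hA hC hAC hCA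
        obtain ⟨w, hwM, hwA⟩ : ∃ w ∈ M, w ∉ A := by
          by_contra hc
          push Not at hc
          exact hMA (Finset.Subset.antisymm hc hAM)
        have hMw : M = N w A := by
          apply hUq A hA w hwA M
          refine ⟨hM, hAM, hwM, fun E hE hAE hEM hwE => ?_⟩
          rcases hMcov E hE hAE hEM with e | e
          · exact e
          · exact absurd (e ▸ hwM) hwE
        have hwz : w ∉ N z A := by
          intro e
          have h1 := hB z hzA w hwA e
          apply hzC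
          apply hMC
          rw [hMw, h1]
          exact hz2
        have hws : w = s := by
          rcases Finset.mem_insert.1 (hCT (hMC hwM)) with e | e
          · exact e
          · exact absurd e hwz
        have hdM : d ∈ M := by
          rw [hMw, hws]
          exact hdN
        rcases Finset.mem_insert.1 (hCT (hMC hdM)) with e | e
        · exact hsd e.symm
        · exact hdzN e
      have heq := hUq A hA z hzA _ hgen
      apply hszN
      rw [← heq]
      exact Finset.mem_insert_self _ _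
    · push Not at hz
      obtain ⟨C, hC, hCsd⟩ := hsep s d hsd
      obtain ⟨hs1, hs2, hs3, hs4⟩ := hN s A hA hsA
      have h1 := hs4 (C ∪ A) (hU C hC A hA) Finset.subset_union_right (fun y _ => hz y)
      apply hCsd
      rcases h1 with e | e
      · constructor
        · intro hs
          exfalso
          apply hsA
          rw [← e]
          exact Finset.mem_union_left _ hs
        · intro hd
          exfalso
          apply hdA
          rw [← e]
          exact Finset.mem_union_left _ hd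
      · have hs : s ∈ C ∪ A := by
          rw [e]
          exact hz s
        have hd : d ∈ C ∪ A := by
          rw [e]
          exact hz d
        have hs' := (Finset.mem_union.1 hs).resolve_right hsA
        have hd' := (Finset.mem_union.1 hd).resolve_right hdA
        exact ⟨fun _ => hd', fun _ => hs'⟩
  -- hence everything is a member
  have herase : ∀ B ∈ 𝓐, ∀ x ∈ B, B.erase x ∈ 𝓐 := by
    intro B hB x hx
    obtain ⟨A, hA, hxA, hAB⟩ := hsurj x B hB hx
    apply hup A hA
    intro y hy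
    refine Finset.mem_erase.2 ⟨fun e => hxA (e ▸ hy), ?_⟩
    rw [← hAB]
    exact (hN x A hA hxA).2.2.1 hy
  have hall : ∀ E : Finset X, Eᶜ ∈ 𝓐 := by
    intro E
    induction E using Finset.induction_on with
    | empty =>
      obtain ⟨A, hA⟩ := hne
      rw [Finset.compl_empty]
      exact hup A hA _ (Finset.subset_univ _)
    | insert a E ha ih =>
      have : (insert a E)ᶜ = Eᶜ.erase a := by
        ext y
        simp [Finset.mem_erase]
      rw [this]
      exact herase _ ih a (Finset.mem_compl.2 ha)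
  obtain ⟨D, hD⟩ := hD
  apply hD
  have := hall Dᶜ
  rwa [compl_compl] at this

end General

/-! ### Algebras -/

section Algebras

variable {X I : Type} {k : I → ℕ}

/-- Subalgebras: subsets closed under all operations (the empty set is allowed). -/
def IsSub (f : (i : I) → (Fin (k i) → X) → X → X) (S : Finset X) : Prop :=
  ∀ i (a : Fin (k i) → X), (∀ t, a t ∈ S) → ∀ y ∈ S, f i a y ∈ S

/-- Every translation `y ↦ f i (a, y)` is a permutation and maps subalgebras to subalgebras. -/
def GoodTranslations (f : (i : I) → (Fin (k i) → X) → X → X) : Prop :=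
  ∀ i (a : Fin (k i) → X), ∃ h : Function.Bijective (f i a),
    ∀ T : Finset X, IsSub f T → IsSub f (T.map ⟨f i a, h.1⟩)

/-- `𝓐` is the family of the complements of the subalgebras with the property `Q`. -/
def IsFam [Fintype X] [DecidableEq X] (f : (i : I) → (Fin (k i) → X) → X → X)
    (Q : Finset X → Prop) (𝓐 : Finset (Finset X)) : Prop :=
  ∀ A, A ∈ 𝓐 ↔ IsSub f Aᶜ ∧ Q Aᶜ

/-- `Q` is inherited by subalgebras of subalgebras. -/
def Hereditary (f : (i : I) → (Fin (k i) → X) → X → X) (Q : Finset X → Prop) : Prop :=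
  ∀ S T : Finset X, IsSub f S → IsSub f T → T ⊆ S → Q S → Q T

variable {f : (i : I) → (Fin (k i) → X) → X → X}

theorem isSub_inter [DecidableEq X] {S T : Finset X} (hS : IsSub f S) (hT : IsSub f T) :
    IsSub f (S ∩ T) := fun i a ha y hy =>
  Finset.mem_inter.2 ⟨hS i a (fun t => (Finset.mem_inter.1 (ha t)).1) y (Finset.mem_inter.1 hy).1,
    hT i a (fun t => (Finset.mem_inter.1 (ha t)).2) y (Finset.mem_inter.1 hy).2⟩

/-- Permutations which preserve `S` and the set of all subalgebras. -/
def Good [DecidableEq X] (f : (i : I) → (Fin (k i) → X) → X → X) (S : Finset X)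
    (g : Equiv.Perm X) : Prop :=
  (∀ T : Finset X, IsSub f (T.image g) ↔ IsSub f T) ∧ ∀ y, g y ∈ S ↔ y ∈ S

theorem Good.mul [DecidableEq X] {S : Finset X} {g h : Equiv.Perm X} (hg : Good f S g)
    (hh : Good f S h) : Good f S (g * h) := by
  refine ⟨fun T => ?_, fun y => ?_⟩
  · have : T.image (g * h) = (T.image h).image g := by
      rw [Finset.image_image]
      rfl
    rw [this, hg.1, hh.1]
  · rw [Equiv.Perm.mul_apply, hg.2, hh.2]

theorem image_inv_image [DecidableEq X] (g : Equiv.Perm X) (T : Finset X) :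
    (T.image (g⁻¹ : Equiv.Perm X)).image g = T := by
  ext y
  simp only [Finset.mem_image]
  constructor
  · rintro ⟨z, ⟨w, hw, rfl⟩, rfl⟩
    have : g (g⁻¹ w) = w := Equiv.apply_symm_apply g w
    rwa [this]
  · intro hy
    exact ⟨g⁻¹ y, ⟨y, hy, rfl⟩, Equiv.apply_symm_apply g y⟩

theorem Good.inv [DecidableEq X] {S : Finset X} {g : Equiv.Perm X} (hg : Good f S g) :
    Good f S g⁻¹ := by
  refine ⟨fun T => ?_, fun y => ?_⟩
  · rw [← hg.1 (T.image (g⁻¹ : Equiv.Perm X)), image_inv_image]
  · have : g (g⁻¹ y) = y := Equiv.apply_symm_apply g y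
    rw [← hg.2 (g⁻¹ y), this]

theorem Good.one [DecidableEq X] {S : Finset X} : Good f S 1 := by
  refine ⟨fun T => ?_, fun _ => Iff.rfl⟩
  have : T.image (1 : Equiv.Perm X) = T := by
    ext y
    simp
  rw [this]

theorem good_translation [Fintype X] [DecidableEq X] (hf : GoodTranslations f) {S : Finset X}
    (hS : IsSub f S) {i : I} {a : Fin (k i) → X} (ha : ∀ t, a t ∈ S) :
    Good f S (Equiv.ofBijective (f i a) (hf i a).choose) := by
  classical
  have hbij : Function.Bijective (f i a) := (hf i a).choose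
  refine ⟨fun T => ?_, fun y => ⟨fun hy => ?_, fun hy => hS i a ha y hy⟩⟩
  · have hcoe : ∀ T : Finset X,
        T.image (Equiv.ofBijective (f i a) (hf i a).choose) = T.image (f i a) := fun T => rfl
    have hmap : ∀ T : Finset X, IsSub f T → IsSub f (T.image (f i a)) := by
      intro T hT
      have h1 := (hf i a).choose_spec T hT
      rw [Finset.map_eq_image] at h1
      exact h1
    rw [hcoe]
    constructor
    · intro hT
      have hinj : Function.Injective fun T : Finset X => T.image (f i a) :=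
        Finset.image_injective hbij.1
      have himg : (Finset.univ.filter fun T : Finset X => IsSub f T).image
          (fun T => T.image (f i a)) = Finset.univ.filter fun T : Finset X => IsSub f T := by
        apply Finset.eq_of_subset_of_card_le
        · intro T' hT'
          obtain ⟨T'', hT'', rfl⟩ := Finset.mem_image.1 hT'
          exact Finset.mem_filter.2 ⟨Finset.mem_univ _, hmap T'' (Finset.mem_filter.1 hT'').2⟩
        · rw [Finset.card_image_of_injective _ hinj]
      have h1 : T.image (f i a) ∈ (Finset.univ.filter fun T : Finset X => IsSub f T).image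
          (fun T => T.image (f i a)) := by
        rw [himg]
        exact Finset.mem_filter.2 ⟨Finset.mem_univ _, hT⟩
      obtain ⟨T', hT', hTT⟩ := Finset.mem_image.1 h1
      have h2 : T' = T := hinj hTT
      rw [← h2]
      exact (Finset.mem_filter.1 hT').2
    · exact hmap T
  · have himg : S.image (f i a) = S := by
      apply Finset.eq_of_subset_of_card_le
      · intro z hz
        obtain ⟨w, hw, rfl⟩ := Finset.mem_image.1 hz
        exact hS i a ha w hw
      · rw [Finset.card_image_of_injective _ hbij.1]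
    have hy' : f i a y ∈ S := hy
    rw [← himg] at hy'
    obtain ⟨w, hw, hwy⟩ := Finset.mem_image.1 hy'
    rwa [hbij.1 hwy] at hw

/-- Every point of a subalgebra `S` is avoided by a maximal proper subalgebra of `S`. -/
theorem exists_max [Fintype X] [DecidableEq X] (hf : GoodTranslations f) {S : Finset X}
    (hS : IsSub f S) {x : X} (hx : x ∈ S) :
    ∃ N, IsSub f N ∧ N ⊆ S ∧ x ∉ N ∧ ∀ T, IsSub f T → N ⊆ T → T ⊆ S → T = N ∨ T = S := by
  classical
  set R : Finset X := S.filter fun y => ¬ ∃ g, Good f S g ∧ g x = y with hR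
  have hRsub : IsSub f R := by
    intro i a ha y hy
    have haS : ∀ t, a t ∈ S := fun t => (Finset.mem_filter.1 (ha t)).1
    have hyS := (Finset.mem_filter.1 hy).1
    refine Finset.mem_filter.2 ⟨hS i a haS y hyS, ?_⟩
    rintro ⟨g, hg, hgx⟩
    apply (Finset.mem_filter.1 hy).2
    refine ⟨(Equiv.ofBijective (f i a) (hf i a).choose)⁻¹ * g,
      (good_translation hf hS haS).inv.mul hg, ?_⟩
    rw [Equiv.Perm.mul_apply, hgx, Equiv.Perm.inv_eq_iff_eq]
    rfl
  have hRne : R ≠ S := by
    intro e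
    have : x ∈ R := by rw [e]; exact hx
    exact (Finset.mem_filter.1 this).2 ⟨1, Good.one, rfl⟩
  -- a maximal proper subalgebra containing `R`
  set P : Finset (Finset X) := S.powerset.filter fun T => IsSub f T ∧ R ⊆ T ∧ T ≠ S with hP
  have hPne : P.Nonempty :=
    ⟨R, Finset.mem_filter.2 ⟨Finset.mem_powerset.2 (Finset.filter_subset _ _), hRsub,
      Finset.Subset.refl _, hRne⟩⟩
  obtain ⟨M, hM, hMmax⟩ := Finset.exists_max_image P Finset.card hPne
  obtain ⟨hMS, hMsub, hRM, hMne⟩ := Finset.mem_filter.1 hM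
  rw [Finset.mem_powerset] at hMS
  have hmax : ∀ T, IsSub f T → M ⊆ T → T ⊆ S → T = M ∨ T = S := by
    intro T hT hMT hTS
    by_cases hne : T = S
    · exact Or.inr hne
    · left
      have hTP : T ∈ P := Finset.mem_filter.2 ⟨Finset.mem_powerset.2 hTS, hT, hRM.trans hMT, hne⟩
      exact (Finset.eq_of_subset_of_card_le hMT (hMmax T hTP)).symm
  obtain ⟨o, hoS, hoM⟩ : ∃ o ∈ S, o ∉ M := by
    by_contra hcon
    push Not at hcon
    exact hMne (Finset.Subset.antisymm hMS hcon)
  obtain ⟨g, hg, hgx⟩ : ∃ g, Good f S g ∧ g x = o := by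
    by_contra hcon
    exact hoM (hRM (Finset.mem_filter.2 ⟨hoS, hcon⟩))
  have hgi : ∀ y, g (g⁻¹ y) = y := fun y => Equiv.apply_symm_apply g y
  have hig : ∀ y, g⁻¹ (g y) = y := fun y => Equiv.symm_apply_apply g y
  refine ⟨M.image (g⁻¹ : Equiv.Perm X), (hg.inv.1 M).2 hMsub, ?_, ?_, ?_⟩
  · intro y hy
    obtain ⟨m, hm, rfl⟩ := Finset.mem_image.1 hy
    exact (hg.inv.2 m).2 (hMS hm)
  · intro hxN
    obtain ⟨m, hm, hmx⟩ := Finset.mem_image.1 hxN
    apply hoM
    rw [← hgx, ← hmx, hgi]
    exact hm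
  · intro T hT hNT hTS
    have hMT : M ⊆ T.image g := by
      intro m hm
      exact Finset.mem_image.2 ⟨g⁻¹ m, hNT (Finset.mem_image_of_mem _ hm), hgi m⟩
    have hTS' : T.image g ⊆ S := by
      intro z hz
      obtain ⟨w, hw, rfl⟩ := Finset.mem_image.1 hz
      exact (hg.2 w).2 (hTS hw)
    rcases hmax _ ((hg.1 T).2 hT) hMT hTS' with e | e
    · left
      apply Finset.Subset.antisymm _ hNT
      intro y hy
      refine Finset.mem_image.2 ⟨g y, ?_, hig y⟩
      rw [← e]
      exact Finset.mem_image_of_mem _ hy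
    · right
      apply Finset.eq_of_subset_of_card_le hTS
      rw [← e, Finset.card_image_of_injective _ g.injective]

theorem fam_unionClosed [Fintype X] [DecidableEq X] {Q : Finset X → Prop}
    (hQ : Hereditary f Q) {𝓐 : Finset (Finset X)} (h𝓐 : IsFam f Q 𝓐) : UnionClosed 𝓐 := by
  intro A hA B hB
  rw [h𝓐] at hA hB ⊢
  have he : (A ∪ B)ᶜ = Aᶜ ∩ Bᶜ := by
    ext y
    simp
  rw [he]
  have h1 : IsSub f (Aᶜ ∩ Bᶜ) := isSub_inter hA.1 hB.1
  exact ⟨h1, hQ Aᶜ _ hA.1 h1 Finset.inter_subset_left hA.2⟩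

theorem fam_coversCover [Fintype X] [DecidableEq X] (hf : GoodTranslations f)
    {Q : Finset X → Prop} (hQ : Hereditary f Q) {𝓐 : Finset (Finset X)} (h𝓐 : IsFam f Q 𝓐) :
    CoversCover 𝓐 := by
  intro A hA x hx
  obtain ⟨hA1, hA2⟩ := (h𝓐 A).1 hA
  obtain ⟨N, hN1, hN2, hN3, hN4⟩ := exists_max hf hA1 (Finset.mem_compl.2 hx)
  refine ⟨Nᶜ, (h𝓐 Nᶜ).2 ?_, Finset.mem_compl.2 hN3, ?_, ?_⟩
  · rw [compl_compl]
    exact ⟨hN1, hQ Aᶜ N hA1 hN1 hN2 hA2⟩
  · intro y hy
    exact Finset.mem_compl.2 fun e => (Finset.mem_compl.1 (hN2 e)) hy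
  · intro C hC hAC hCN
    rcases hN4 Cᶜ ((h𝓐 C).1 hC).1
      (fun y hy => Finset.mem_compl.2 fun e => (Finset.mem_compl.1 (hCN e)) hy)
      (fun y hy => Finset.mem_compl.2 fun e => (Finset.mem_compl.1 hy) (hAC e)) with e | e
    · right
      rw [← e, compl_compl]
    · left
      rw [← compl_compl C, e, compl_compl]

end Algebras

/-! ### Racks -/

open scoped Quandles

/-- The operation of a rack, with one parameter. -/
def rackOp (X : Type) [Rack X] : (i : Unit) → (Fin 1 → X) → X → X := fun _ a y => a 0 ◃ y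

theorem isSub_rackOp {X : Type} [Rack X] {S : Finset X} :
    IsSub (k := fun _ : Unit => 1) (rackOp X) S ↔ ∀ a ∈ S, ∀ b ∈ S, a ◃ b ∈ S := by
  constructor
  · intro h a ha b hb
    exact h () (fun _ => a) (fun _ => ha) b hb
  · intro h i a ha y hy
    exact h (a 0) (ha 0) y hy

theorem rack_good (X : Type) [Rack X] :
    GoodTranslations (k := fun _ : Unit => 1) (rackOp X) := by
  intro i a
  have hbij : Function.Bijective (rackOp X i a) := (Rack.act' (a 0)).bijective
  refine ⟨hbij, fun T hT => ?_⟩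
  rw [isSub_rackOp] at hT ⊢
  intro u hu v hv
  obtain ⟨u', hu', rfl⟩ := Finset.mem_map.1 hu
  obtain ⟨v', hv', rfl⟩ := Finset.mem_map.1 hv
  refine Finset.mem_map.2 ⟨u' ◃ v', hT u' hu' v' hv', ?_⟩
  exact Shelf.self_distrib

theorem rack_fam (X : Type) [Rack X] [Fintype X] [DecidableEq X] (𝓐 : Finset (Finset X))
    (h𝓐 : ∀ A, A ∈ 𝓐 ↔ ∀ a b : X, a ∉ A → b ∉ A → a ◃ b ∉ A) :
    IsFam (k := fun _ : Unit => 1) (rackOp X) (fun _ => True) 𝓐 := by
  intro A
  rw [h𝓐 A, isSub_rackOp]
  constructor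
  · intro h
    exact ⟨fun a ha b hb =>
      Finset.mem_compl.2 (h a b (Finset.mem_compl.1 ha) (Finset.mem_compl.1 hb)), trivial⟩
  · intro h a b ha hb
    exact Finset.mem_compl.1 (h.1 a (Finset.mem_compl.2 ha) b (Finset.mem_compl.2 hb))

theorem hereditary_true {X I : Type} {k : I → ℕ} (f : (i : I) → (Fin (k i) → X) → X → X) :
    Hereditary f fun _ => True := fun _ _ _ _ _ _ => trivial

/-- **(1)** A union-closed family in which every point outside a member lies in a cover of it:
every point lies in at least half of the members, and, if the family separates points and is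
neither empty nor the whole power set, some point lies in more than half of them.
**(2)** For every finite algebra all of whose translations are permutations which map subalgebras
to subalgebras, and every hereditary property `Q` of subalgebras, the complements of the
subalgebras with property `Q` form such a family.
**(3)** For every finite rack, every point lies in at least half of the complements of subracks.
**(4)** For every finite quandle with `a ◃ b ≠ b` for some `a`, `b`, some point lies in more than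
half of the complements of subquandles. -/
theorem result :
    (∀ (X : Type) [Fintype X] [DecidableEq X] (𝓐 : Finset (Finset X)),
      UnionClosed 𝓐 → CoversCover 𝓐 →
      (∀ x, 𝓐.card ≤ 2 * (𝓐.filter fun A => x ∈ A).card) ∧
      (Separates 𝓐 → 𝓐.Nonempty → (∃ D, D ∉ 𝓐) →
        ∃ x, 𝓐.card < 2 * (𝓐.filter fun A => x ∈ A).card)) ∧
    (∀ (X I : Type) [Fintype X] [DecidableEq X] (k : I → ℕ)
      (f : (i : I) → (Fin (k i) → X) → X → X), GoodTranslations f →
      ∀ Q : Finset X → Prop, Hereditary f Q → ∀ 𝓐 : Finset (Finset X), IsFam f Q 𝓐 →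
      UnionClosed 𝓐 ∧ CoversCover 𝓐) ∧
    (∀ (X : Type) [Rack X] [Fintype X] [DecidableEq X] (𝓐 : Finset (Finset X)),
      (∀ A, A ∈ 𝓐 ↔ ∀ a b : X, a ∉ A → b ∉ A → a ◃ b ∉ A) →
      UnionClosed 𝓐 ∧ ∀ x, 𝓐.card ≤ 2 * (𝓐.filter fun A => x ∈ A).card) ∧
    (∀ (X : Type) [Quandle X] [Fintype X] [DecidableEq X] (𝓐 : Finset (Finset X)),
      (∀ A, A ∈ 𝓐 ↔ ∀ a b : X, a ∉ A → b ∉ A → a ◃ b ∉ A) → (∃ a b : X, a ◃ b ≠ b) →
      ∃ x, 𝓐.card < 2 * (𝓐.filter fun A => x ∈ A).card) := by
  refine ⟨fun X _ _ 𝓐 hU h => ⟨half hU h, strict hU h⟩,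
    fun X I _ _ k f hf Q hQ 𝓐 h => ⟨fam_unionClosed hQ h, fam_coversCover hf hQ h⟩, ?_, ?_⟩
  · intro X _ _ _ 𝓐 h𝓐
    have he := rack_fam X 𝓐 h𝓐
    have hU : UnionClosed 𝓐 := fam_unionClosed (hereditary_true _) he
    have hC : CoversCover 𝓐 := fam_coversCover (rack_good X) (hereditary_true _) he
    exact ⟨hU, half hU hC⟩
  · intro X _ _ _ 𝓐 h𝓐 hab
    have he := rack_fam X 𝓐 h𝓐
    have hU : UnionClosed 𝓐 := fam_unionClosed (hereditary_true _) he
    have hC : CoversCover 𝓐 := fam_coversCover (rack_good X) (hereditary_true _) he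
    obtain ⟨a, b, hab⟩ := hab
    refine strict hU hC ?_ ⟨Finset.univ, ?_⟩ ⟨({a, b} : Finset X)ᶜ, ?_⟩
    · -- singletons are subquandles
      intro x y hxy
      refine ⟨({x} : Finset X)ᶜ, ?_, ?_⟩
      · rw [h𝓐]
        intro u v hu hv
        rw [Finset.mem_compl, not_not, Finset.mem_singleton] at hu hv ⊢
        rw [hu, hv]
        exact Quandle.fix
      · intro h
        have h1 : y ∈ ({x} : Finset X)ᶜ :=
          Finset.mem_compl.2 fun e => hxy (Finset.mem_singleton.1 e).symm
        exact Finset.mem_compl.1 (h.2 h1) (Finset.mem_singleton_self x)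
    · rw [h𝓐]
      intro u v hu
      exact absurd (Finset.mem_univ u) hu
    · rw [h𝓐]
      intro h
      have h1 := h a b (by simp) (by simp)
      rw [Finset.mem_compl, not_not, Finset.mem_insert, Finset.mem_singleton] at h1
      rcases h1 with e | e
      · -- `a ◃ b = a = a ◃ a`
        have h2 : a ◃ b = a ◃ a := by rw [e]; exact Quandle.fix.symm
        have h3 : b = a := (Rack.left_cancel a).1 h2
        apply hab
        rw [h3]
        exact Quandle.fix
      · exact hab e

end Pool.Agent.Results.MP_d55cb9_co.AutomorphicTranslations
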