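import Pool.Agent.Helper566_Q.Boolean

set_option autoImplicit false

/-!
# Poonen's strict form for families ordered like a lattice of sublattices

Let `D` be a finite distributive lattice and `K ≠ D` a set of elements each of which is the least or
the greatest element of `D`. Let `L` be the lattice of all sublattices of `D` that contain `K`,
ordered by inclusion (`K = {⊥, ⊤}`: the 0-1-sublattices; `K = ∅`: all sublattices, the empty one
included). Let `A` be a finite union-closed family whose inclusion order is isomorphic to `L`.
Then some element lies in at least half of the members of `A`, and in strictly more than half of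
them if some subset of `D` containing `K` is not a sublattice, or if `A` is separating and not the
power set of its union.

Proof. We may take `K = {⊥, ⊤}`. Then `L` is dual to the lattice of the quasi-orders `R ⊇ P`, where
`P` is the order of the poset `X` of the join-irreducible elements of `D`. If `X` is not an
antichain, take a suitable covering pair `b ⋖ a` of `P`: the quasi-orders containing `(a, b)` are
mapped to others by splitting the class of `a` and `b` into its parts inside and outside the
principal down-set of `b`. If `X` is an antichain, a transposition and the isolation of `a` do it.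

The dual direction (the complements of the sublattices between any two sublattices) is the hand-in
`IntermediateSublattices` under `MP_75f39d_co`.
-/

namespace Pool.Agent.Results.MP_d55cb9_co.SublatticeLattices

universe u v

theorem result {D : Type u} [DistribLattice D] [Finite D] (K : Set D)
    (hK : ∀ k ∈ K, IsBot k ∨ IsTop k) (hne : ∃ d, d ∉ K)
    {α : Type v} [DecidableEq α] (A : Finset (Finset α))
    (hA : ∀ X ∈ A, ∀ Y ∈ A, X ∪ Y ∈ A)
    (h : Nonempty ({X // X ∈ A} ≃o {S : Sublattice D // ∀ k ∈ K, k ∈ S})) :
    (∃ i, A.card ≤ 2 * (A.filter fun X => i ∈ X).card) ∧
      ((∃ S : Set D, K ⊆ S ∧ ¬ (SupClosed S ∧ InfClosed S)) →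
        ∃ i, A.card < 2 * (A.filter fun X => i ∈ X).card) ∧
      ((∀ i j, i ∈ A.sup id → j ∈ A.sup id → i ≠ j → ∃ X ∈ A, ¬ (i ∈ X ↔ j ∈ X)) →
        A ≠ (A.sup id).powerset → ∃ i, A.card < 2 * (A.filter fun X => i ∈ X).card) :=
  Helper566.QO.final' K hK hne A hA (Or.inl h)

end Pool.Agent.Results.MP_d55cb9_co.SublatticeLattices
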