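import Pool.Agent.H153TR.Final

/-!
# The union-closed sets conjecture for the transitive relations between two given ones

A relation on a finite set is a set of pairs. Let `P ⊆ Q` be transitive relations and `A` the
family of the complements `Q \ R` of the transitive relations `R` with `P ⊆ R ⊆ Q`; if `P` is
reflexive these are all quasi-orders (topologies) between `P` and `Q`.

* `A` is union-closed with universe `Q \ P`.
* If `P ≠ Q`, some pair of `Q \ P` lies in at least half of the members of `A`, that is in at most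
  half of the relations `R`.
* If `A` separates the points of its universe and is not its power set, some pair lies in strictly
  more than half of the members (the strict form of Poonen).
-/

set_option autoImplicit false

namespace Pool.Agent.Results.MP_d55cb9_co.TransitiveRelations

theorem result {V : Type*} [Finite V] [DecidableEq V] (P Q : Finset (V × V))
    (hP : ∀ a b c, (a, b) ∈ P → (b, c) ∈ P → (a, c) ∈ P)
    (hQ : ∀ a b c, (a, b) ∈ Q → (b, c) ∈ Q → (a, c) ∈ Q) (hPQ : P ⊆ Q)
    (A : Finset (Finset (V × V)))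
    (hA : ∀ X, X ∈ A ↔ ∃ R : Finset (V × V), (∀ a b c, (a, b) ∈ R → (b, c) ∈ R → (a, c) ∈ R) ∧
      P ⊆ R ∧ R ⊆ Q ∧ X = Q \ R) :
    (∀ X ∈ A, ∀ Y ∈ A, X ∪ Y ∈ A) ∧ A.sup id = Q \ P ∧
    (P ≠ Q → ∃ e ∈ Q \ P, A.card ≤ 2 * (A.filter (fun X => e ∈ X)).card) ∧
    ((∀ e ∈ Q \ P, ∀ e' ∈ Q \ P, e ≠ e' → ∃ X ∈ A, (e ∈ X ∧ e' ∉ X) ∨ (e ∉ X ∧ e' ∈ X)) →
      A ≠ (Q \ P).powerset → ∃ e ∈ Q \ P, A.card < 2 * (A.filter (fun X => e ∈ X)).card) := by
  obtain ⟨h1, h2, h3⟩ := Pool.Agent.H153TR.weak P Q hP hQ hPQ A hA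
  exact ⟨h1, h2, h3, fun hs hn => Pool.Agent.H153TR.strict P Q hP hQ hPQ A hA hs hn⟩

end Pool.Agent.Results.MP_d55cb9_co.TransitiveRelations
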